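import Mathlib

set_option autoImplicit false

open Filter Topology

namespace Pool.Agent.H929Z.Rok

variable {A : Type*} [CStarAlgebra A]

/-- a nonzero element of the form `x ^ n * g n` with `‖g n‖ ≤ r⁻¹ ^ n` for all `n` -/
lemma exists_cut [Nontrivial A] (x : A) (hx : ∃ b : A, x = star b * b) (hn : ‖x‖ = 1) (r : ℝ)
    (hr0 : 0 < r) (hr1 : r < 1) :
    ∃ y : A, y ≠ 0 ∧ ∀ n : ℕ, ∃ g : A, y = x ^ n * g ∧ ‖g‖ ≤ r⁻¹ ^ n := by
  let := CStarAlgebra.spectralOrder A
  have := CStarAlgebra.spectralOrderedRing A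
  have hx0 : 0 ≤ x := by
    obtain ⟨b, rfl⟩ := hx
    exact star_mul_self_nonneg b
  have hsa : IsSelfAdjoint x := hx0.isSelfAdjoint
  let f : ℝ → ℝ := fun t => max (t - r) 0
  have hf : Continuous f := by fun_prop
  refine ⟨cfc f x, ?_, fun n => ?_⟩
  · intro h0
    have h1 : ‖x‖ ∈ spectrum ℝ x := CStarAlgebra.norm_mem_spectrum_of_nonneg hx0
    have h2 := norm_apply_le_norm_cfc f x h1 hf.continuousOn hsa
    rw [h0, hn, norm_zero] at h2
    have h3 : f 1 = 1 - r := max_eq_left (by linarith)
    rw [h3, Real.norm_eq_abs, abs_of_pos (by linarith)] at h2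
    linarith
  · let g : ℝ → ℝ := fun t => f t / (max t r) ^ n
    have hmax : ∀ t, 0 < max t r := fun t => lt_max_of_lt_right hr0
    have hg : Continuous g := hf.div (by fun_prop) (fun t => (pow_pos (hmax t) n).ne')
    refine ⟨cfc g x, ?_, ?_⟩
    · have e : f = fun t => t ^ n * g t := by
        funext t
        rcases le_total t r with h | h
        · have : f t = 0 := max_eq_right (by linarith)
          simp [g, this]
        · have h1 : max t r = t := max_eq_left h
          have h2 : t ^ n ≠ 0 := (pow_pos (by linarith) n).ne'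
          simp only [g, h1]
          field_simp
      conv_lhs => rw [e]
      rw [cfc_mul (fun t => t ^ n) g x (by fun_prop) hg.continuousOn, cfc_pow_id x n hsa]
    · refine norm_cfc_le (by positivity) fun t ht => ?_
      have h1 : t ≤ 1 := by
        have := spectrum.norm_le_norm_of_mem ht
        rw [hn, Real.norm_eq_abs] at this
        exact (le_abs_self t).trans this
      have h2 : 0 ≤ f t := le_max_right _ _
      have h3 : f t ≤ 1 := max_le (by linarith) zero_le_one
      have h4 : r ^ n ≤ (max t r) ^ n := pow_le_pow_left₀ hr0.le (le_max_right _ _) n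
      simp only [g]
      rw [Real.norm_eq_abs, abs_of_nonneg (div_nonneg h2 (pow_pos (hmax t) n).le), inv_pow,
        ← one_div]
      exact div_le_div₀ zero_le_one h3 (pow_pos hr0 n) h4

theorem key (hs : IsSimpleRing A) (x : A) (hx : ∃ b : A, x = star b * b) (hn : ‖x‖ = 1)
    (ε : ℝ) (hε : 0 < ε) :
    ∃ (F : Finset A) (δ : ℝ), 0 < δ ∧ ∀ p : A, IsSelfAdjoint p → IsIdempotentElem p → p ≠ 0 →
      (∀ a ∈ F, ‖p * a - a * p‖ < δ) → 1 - ε < ‖p * x * p‖ := by
  classical
  rcases lt_or_ge 1 ε with h1 | h1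
  · exact ⟨∅, 1, one_pos, fun p _ _ _ _ => lt_of_lt_of_le (by linarith) (norm_nonneg _)⟩
  by_contra hcon
  push Not at hcon
  have : Nontrivial A := by have := hs; infer_instance
  choose P hP1 hP2 hP3 hP4 hP5 using
    fun i : Finset A × ℕ => hcon i.1 (1 / ((i.2 : ℝ) + 1)) (by positivity)
  have hnorm : ∀ i, ‖P i‖ = 1 := fun i => by
    have h2 : ‖star (P i) * P i‖ = ‖P i‖ * ‖P i‖ := CStarRing.norm_star_mul_self
    rw [(hP1 i).star_eq, (hP2 i).eq] at h2
    have h3 : ‖P i‖ ≠ 0 := norm_ne_zero_iff.2 (hP3 i)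
    have h4 : ‖P i‖ * 1 = ‖P i‖ * ‖P i‖ := by rw [mul_one]; exact h2
    exact (mul_left_cancel₀ h3 h4).symm
  have hcomm : ∀ a : A, Tendsto (fun i => ‖P i * a - a * P i‖) atTop (𝓝 0) := by
    intro a
    have h2 : Tendsto (fun i : Finset A × ℕ => 1 / ((i.2 : ℝ) + 1)) atTop (𝓝 0) := by
      have h3 : Tendsto (fun i : Finset A × ℕ => i.2) atTop atTop := by
        rw [← prod_atTop_atTop_eq]; exact tendsto_snd
      exact tendsto_one_div_add_atTop_nhds_zero_nat.comp h3
    refine squeeze_zero' (Eventually.of_forall fun i => norm_nonneg _) ?_ h2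
    filter_upwards [eventually_ge_atTop (({a} : Finset A), 0)] with i hi
    exact (hP4 i a (hi.1 (Finset.mem_singleton_self a))).le
  let I : TwoSidedIdeal A := TwoSidedIdeal.mk'
    {a | Tendsto (fun i => ‖P i * a‖) atTop (𝓝 0)} (by simp)
    (by
      intro a b ha hb
      have := Tendsto.add ha hb
      rw [add_zero] at this
      refine squeeze_zero (fun i => norm_nonneg _) (fun i => ?_) this
      rw [mul_add]; exact norm_add_le _ _)
    (by
      intro a ha
      simpa using ha)
    (by
      intro b a ha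
      have := ((hcomm b).mul_const ‖a‖).add (Tendsto.const_mul ‖b‖ ha)
      rw [zero_mul, mul_zero, add_zero] at this
      refine squeeze_zero (fun i => norm_nonneg _) (fun i => ?_) this
      have e : P i * (b * a) = (P i * b - b * P i) * a + b * (P i * a) := by noncomm_ring
      rw [e]
      exact (norm_add_le _ _).trans (add_le_add (norm_mul_le _ _) (norm_mul_le _ _)))
    (by
      intro a b ha
      have := Tendsto.mul_const ‖b‖ ha
      rw [zero_mul] at this
      refine squeeze_zero (fun i => norm_nonneg _) (fun i => ?_) this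
      rw [← mul_assoc]; exact norm_mul_le _ _)
  have hmem : ∀ a, a ∈ I ↔ Tendsto (fun i => ‖P i * a‖) atTop (𝓝 0) := fun a =>
    TwoSidedIdeal.mem_mk' _ _ _ _ _ _ a
  have hI : I = ⊥ := by
    rcases hs.simple.eq_bot_or_eq_top I with h | h
    · exact h
    · exfalso
      have h2 : (1 : A) ∈ I := by rw [h]; trivial
      rw [hmem] at h2
      simp only [mul_one, hnorm] at h2
      have := tendsto_nhds_unique h2 tendsto_const_nhds
      norm_num at this
  have hpow : ∀ n : ℕ, ∀ η : ℝ, 0 < η → ∀ᶠ i in atTop, ‖P i * x ^ n‖ ≤ (1 - ε) ^ n + η := by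
    intro n
    induction n with
    | zero =>
      intro η hη
      exact Eventually.of_forall fun i => by simp [hnorm, hη.le]
    | succ n ih =>
      intro η hη
      have h2 : ∀ᶠ i in atTop, ‖P i * x - x * P i‖ < η / 2 :=
        (hcomm x).eventually (gt_mem_nhds (by linarith))
      filter_upwards [ih (η / 2) (by linarith), h2] with i hi hi'
      have hp : P i * P i = P i := hP2 i
      have e : P i * x ^ (n + 1)
          = (P i * x * P i) * (P i * x ^ n) + P i * (P i * x - x * P i) * x ^ n := by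
        calc P i * x ^ (n + 1) = (P i * P i) * x * x ^ n := by rw [hp, pow_succ', mul_assoc]
          _ = P i * x * (P i * P i) * x ^ n + P i * (P i * x - x * P i) * x ^ n := by
              have e2 : P i * (P i * x - x * P i) * x ^ n
                  = (P i * P i) * x * x ^ n - P i * x * P i * x ^ n := by noncomm_ring
              rw [e2, hp]; abel
          _ = _ := by noncomm_ring
      have hxn : ‖x ^ n‖ ≤ 1 := by
        have := norm_pow_le x n
        rwa [hn, one_pow] at this
      have a1 : ‖(P i * x * P i) * (P i * x ^ n)‖ ≤ (1 - ε) * ((1 - ε) ^ n + η / 2) :=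
        (norm_mul_le _ _).trans (mul_le_mul (hP5 i) hi (norm_nonneg _) (by linarith))
      have a2 : ‖P i * (P i * x - x * P i) * x ^ n‖ ≤ η / 2 := by
        calc _ ≤ ‖P i‖ * ‖P i * x - x * P i‖ * ‖x ^ n‖ :=
              (norm_mul_le _ _).trans (mul_le_mul_of_nonneg_right (norm_mul_le _ _) (norm_nonneg _))
          _ ≤ 1 * (η / 2) * 1 := by
              rw [hnorm]
              exact mul_le_mul (by linarith) hxn (norm_nonneg _) (by linarith)
          _ = η / 2 := by ring
      rw [e]
      refine (norm_add_le _ _).trans ?_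
      rw [pow_succ']
      nlinarith
  obtain ⟨y, hy0, hy⟩ := exists_cut x hx hn (1 - ε / 2) (by linarith) (by linarith)
  apply hy0
  have hyI : y ∈ I := by
    rw [hmem, Metric.tendsto_nhds]
    intro η hη
    have hr : (0 : ℝ) < 1 - ε / 2 := by linarith
    have hq : (1 - ε) * (1 - ε / 2)⁻¹ < 1 := by
      rw [← div_eq_mul_inv, div_lt_one hr]; linarith
    obtain ⟨n, hn'⟩ := exists_pow_lt_of_lt_one (show 0 < η / 2 by linarith) hq
    obtain ⟨g, hg, hg'⟩ := hy n
    have hc : 0 < (1 - ε / 2)⁻¹ ^ n := by positivity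
    filter_upwards [hpow n (η / 2 / (1 - ε / 2)⁻¹ ^ n) (by positivity)] with i hi
    rw [Real.dist_eq, sub_zero, abs_of_nonneg (norm_nonneg _), hg, ← mul_assoc]
    calc _ ≤ ‖P i * x ^ n‖ * ‖g‖ := norm_mul_le _ _
      _ ≤ ((1 - ε) ^ n + η / 2 / (1 - ε / 2)⁻¹ ^ n) * (1 - ε / 2)⁻¹ ^ n :=
          mul_le_mul hi hg' (norm_nonneg _) ((norm_nonneg _).trans hi)
      _ = ((1 - ε) * (1 - ε / 2)⁻¹) ^ n + η / 2 := by
          rw [add_mul, div_mul_cancel₀ _ hc.ne', mul_pow]
      _ < η := by linarith
  rw [hI] at hyI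
  exact (TwoSidedIdeal.mem_bot A).1 hyI

end Pool.Agent.H929Z.Rok
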